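import Mathlib
import Pool.Agent.Q194.JBStar

set_option autoImplicit false

/-! Separate J-strict continuity of the Jordan product on the multipliers of a JB*-algebra. -/

namespace Pool.Agent.Results.MP_6503f0_an.SeparateStrict

open Filter Topology Pool.Agent.Q194.JB

variable {A B : Type*} [NormedAddCommGroup A] [NormedSpace ℂ A] [NormedAddCommGroup B]
  [NormedSpace ℂ B]

/-- `x : B` is a multiplier of `A`, where `A` is seen in `B` through `ι`: `x ∘ ι(A) ⊆ ι(A)`. -/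
def IsMult (JB : JBStar B) (ι : A → B) (x : B) : Prop :=
  ∀ a : A, ∃ b : A, JB.mul x (ι a) = ι b

/-- The J-strict topology on `B`: it is generated by the seminorms `y ↦ ‖ι(a) ∘ y‖`, `a : A`. -/
@[instance_reducible] def jstrict (JB : JBStar B) (ι : A → B) : TopologicalSpace B :=
  ⨅ a : A, TopologicalSpace.induced (fun y : B => JB.mul (ι a) y) inferInstance

/-- Domination by finitely many of the seminorms. -/
def Dom (JB : JBStar B) (ι : A → B) (f : B → ℝ) : Prop :=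
  ∃ (n : ℕ) (c : Fin n → A) (C : ℝ), ∀ y : B, f y ≤ C * ∑ i, ‖JB.mul (ι (c i)) y‖

omit [NormedAddCommGroup A] [NormedSpace ℂ A] in
lemma dom_one (JB : JBStar B) (ι : A → B) (a : A) (K : ℝ) (f : B → ℝ)
    (h : ∀ y, f y ≤ K * ‖JB.mul (ι a) y‖) : Dom JB ι f :=
  ⟨1, fun _ => a, K, fun y => by simpa using h y⟩

omit [NormedAddCommGroup A] [NormedSpace ℂ A] in
lemma dom_add (JB : JBStar B) (ι : A → B) (f g h : B → ℝ) (hf : Dom JB ι f) (hg : Dom JB ι g)
    (hle : ∀ y, h y ≤ f y + g y) : Dom JB ι h := by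
  obtain ⟨n, c, C, hC⟩ := hf
  obtain ⟨m, d, D, hD⟩ := hg
  refine ⟨n + m, Fin.append c d, max C D, fun y => ?_⟩
  rw [Fin.sum_univ_add]
  simp only [Fin.append_left, Fin.append_right]
  have h1 : 0 ≤ ∑ i, ‖JB.mul (ι (c i)) y‖ := Finset.sum_nonneg fun _ _ => norm_nonneg _
  have h2 : 0 ≤ ∑ i, ‖JB.mul (ι (d i)) y‖ := Finset.sum_nonneg fun _ _ => norm_nonneg _
  calc h y ≤ f y + g y := hle y
    _ ≤ C * (∑ i, ‖JB.mul (ι (c i)) y‖) + D * (∑ i, ‖JB.mul (ι (d i)) y‖) :=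
        add_le_add (hC y) (hD y)
    _ ≤ max C D * (∑ i, ‖JB.mul (ι (c i)) y‖) + max C D * (∑ i, ‖JB.mul (ι (d i)) y‖) := by
        gcongr
        · exact le_max_left _ _
        · exact le_max_right _ _
    _ = _ := by ring

omit [NormedAddCommGroup A] [NormedSpace ℂ A] in
lemma dom_mul (JB : JBStar B) (ι : A → B) (z : B) (f : B → B)
    (hf : Dom JB ι fun y => ‖f y‖) : Dom JB ι fun y => ‖JB.mul z (f y)‖ := by
  obtain ⟨n, c, C, hC⟩ := hf
  refine ⟨n, c, ‖z‖ * C, fun y => ?_⟩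
  calc ‖JB.mul z (f y)‖ ≤ ‖z‖ * ‖f y‖ := JB.norm_mul_le _ _
    _ ≤ ‖z‖ * (C * ∑ i, ‖JB.mul (ι (c i)) y‖) := by
        gcongr
        exact hC y
    _ = _ := by ring

lemma dominated [CompleteSpace A] (JA : JBStar A) (JB : JBStar B) (ι : A →ₗᵢ[ℂ] B)
    (hmul : ∀ a b, ι (JA.mul a b) = JB.mul (ι a) (ι b)) (x : B) (hx : IsMult JB ι x) (a : A) :
    Dom JB ι fun y => ‖JB.mul (ι a) (JB.mul x y)‖ := by
  refine JA.prod_induction (fun a => Dom JB ι fun y => ‖JB.mul (ι a) (JB.mul x y)‖) ?_ ?_ a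
  · intro b c
    obtain ⟨b', hb'⟩ := hx b
    obtain ⟨c', hc'⟩ := hx c
    have hc'' : JB.mul (ι c) x = ι c' := by rw [JB.mul_comm]; exact hc'
    have key : ∀ y, JB.mul (ι (JA.mul b c)) (JB.mul x y) =
        JB.mul x (JB.mul (ι (JA.mul b c)) y)
          + (JB.mul (ι b) (JB.mul (ι c') y) - JB.mul (ι c') (JB.mul (ι b) y))
          + (JB.mul (ι c) (JB.mul (ι b') y) - JB.mul (ι b') (JB.mul (ι c) y)) := by
      intro y
      have := JB.strict_formula x (ι b) (ι c) y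
      rw [hc'', hb', ← hmul] at this
      exact this
    have base : ∀ a : A, Dom JB ι fun y => ‖JB.mul (ι a) y‖ := fun a =>
      dom_one JB ι a 1 _ fun y => by rw [one_mul]
    have h1 := dom_mul JB ι x (fun y => JB.mul (ι (JA.mul b c)) y) (base _)
    have h2 := dom_mul JB ι (ι b) (fun y => JB.mul (ι c') y) (base _)
    have h3 := dom_mul JB ι (ι c') (fun y => JB.mul (ι b) y) (base _)
    have h4 := dom_mul JB ι (ι c) (fun y => JB.mul (ι b') y) (base _)
    have h5 := dom_mul JB ι (ι b') (fun y => JB.mul (ι c) y) (base _)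
    have h23 := dom_add JB ι _ _ (fun y => ‖JB.mul (ι b) (JB.mul (ι c') y)
      - JB.mul (ι c') (JB.mul (ι b) y)‖) h2 h3 fun y => norm_sub_le _ _
    have h45 := dom_add JB ι _ _ (fun y => ‖JB.mul (ι c) (JB.mul (ι b') y)
      - JB.mul (ι b') (JB.mul (ι c) y)‖) h4 h5 fun y => norm_sub_le _ _
    have h123 := dom_add JB ι _ _ (fun y => ‖JB.mul x (JB.mul (ι (JA.mul b c)) y)
      + (JB.mul (ι b) (JB.mul (ι c') y) - JB.mul (ι c') (JB.mul (ι b) y))‖) h1 h23
      fun y => norm_add_le _ _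
    refine dom_add JB ι _ _ _ h123 h45 fun y => ?_
    rw [key y]
    exact norm_add_le _ _
  · intro a₁ a₂ h1 h2
    refine dom_add JB ι _ _ _ h1 h2 fun y => ?_
    rw [map_add, map_add, LinearMap.add_apply]
    exact norm_add_le _ _

lemma mult_mul [CompleteSpace A] (JA : JBStar A) (JB : JBStar B) (ι : A →ₗᵢ[ℂ] B)
    (hmul : ∀ a b, ι (JA.mul a b) = JB.mul (ι a) (ι b)) (x y : B) (hx : IsMult JB ι x)
    (hy : IsMult JB ι y) : IsMult JB ι (JB.mul x y) := by
  intro a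
  refine JA.prod_induction (fun a => ∃ b, JB.mul (JB.mul x y) (ι a) = ι b) ?_ ?_ a
  · intro b c
    obtain ⟨b', hb'⟩ := hx b
    obtain ⟨c', hc'⟩ := hx c
    obtain ⟨e, he⟩ := hy (JA.mul b c)
    obtain ⟨f, hf⟩ := hx e
    obtain ⟨g, hg⟩ := hy c'
    obtain ⟨g', hg'⟩ := hy b
    obtain ⟨k, hk⟩ := hy b'
    obtain ⟨k', hk'⟩ := hy c
    have hc'' : JB.mul (ι c) x = ι c' := by rw [JB.mul_comm]; exact hc'
    have := JB.strict_formula x (ι b) (ι c) y
    rw [hc'', hb', ← hmul, JB.mul_comm (ι (JA.mul b c)) y, he, hf, JB.mul_comm (ι c') y, hg,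
      JB.mul_comm (ι b) y, hg', JB.mul_comm (ι b') y, hk, JB.mul_comm (ι c) y, hk', ← hmul,
      ← hmul, ← hmul, ← hmul] at this
    refine ⟨f + (JA.mul b g - JA.mul c' g') + (JA.mul c k - JA.mul b' k'), ?_⟩
    rw [JB.mul_comm, this]
    simp only [map_add, map_sub]
  · rintro a₁ a₂ ⟨b₁, h₁⟩ ⟨b₂, h₂⟩
    exact ⟨b₁ + b₂, by rw [map_add, map_add, h₁, h₂, map_add]⟩

/-- **Separate J-strict continuity.** Let `A`, `B` be JB*-algebras and `ι : A → B` an isometric
Jordan *-homomorphism (for instance the inclusion of `A` in its bidual). Let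
`M = {x : B | x ∘ A ⊆ A}` be the algebra of multipliers of `A` in `B`. Then `M` is closed under
the Jordan product, and for every `x` in `M` the map `y ↦ x ∘ y` is continuous for the J-strict
topology. Quantitatively: for every `a : A` there are finitely many `c₁, …, cₙ : A` and a constant
`C` with `‖a ∘ (x ∘ y)‖ ≤ C ∑ ‖cᵢ ∘ y‖` for all `y`. -/
theorem result [CompleteSpace A] [CompleteSpace B] (JA : JBStar A) (JB : JBStar B)
    (ι : A →ₗᵢ[ℂ] B) (hmul : ∀ a b, ι (JA.mul a b) = JB.mul (ι a) (ι b))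
    (_hst : ∀ a, ι (JA.st a) = JB.st (ι a)) :
    (∀ x y : B, IsMult JB ι x → IsMult JB ι y → IsMult JB ι (JB.mul x y)) ∧
    (∀ x : B, IsMult JB ι x →
      @Continuous B B (jstrict JB ι) (jstrict JB ι) (fun y => JB.mul x y)) ∧
    (∀ x : B, IsMult JB ι x → ∀ a : A, ∃ (n : ℕ) (c : Fin n → A) (C : ℝ), ∀ y : B,
      ‖JB.mul (ι a) (JB.mul x y)‖ ≤ C * ∑ i, ‖JB.mul (ι (c i)) y‖) := by
  refine ⟨fun x y hx hy => mult_mul JA JB ι hmul x y hx hy, fun x hx => ?_, fun x hx a =>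
    dominated JA JB ι hmul x hx a⟩
  have hc : ∀ c : A, @Continuous B B (jstrict JB ι) _ (fun y => JB.mul (ι c) y) := fun c =>
    continuous_iInf_dom continuous_induced_dom
  refine continuous_iInf_rng.2 fun a => continuous_induced_rng.2 ?_
  obtain ⟨n, c, C, hC⟩ := dominated JA JB ι hmul x hx a
  refine (@continuous_iff_continuousAt B B (jstrict JB ι) _ _).2 fun y₀ => ?_
  change Tendsto (fun y => JB.mul (ι a) (JB.mul x y)) (@nhds B (jstrict JB ι) y₀) (𝓝 _)
  rw [tendsto_iff_norm_sub_tendsto_zero]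
  have h1 : Tendsto (fun y => C * ∑ i, ‖JB.mul (ι (c i)) (y - y₀)‖) (@nhds B (jstrict JB ι) y₀)
      (𝓝 0) := by
    have h2 : ∀ i : Fin n, Tendsto (fun y => ‖JB.mul (ι (c i)) (y - y₀)‖)
        (@nhds B (jstrict JB ι) y₀) (𝓝 0) := by
      intro i
      have h3 : Tendsto (fun y => JB.mul (ι (c i)) y) (@nhds B (jstrict JB ι) y₀)
          (𝓝 (JB.mul (ι (c i)) y₀)) :=
        (@continuous_iff_continuousAt B B (jstrict JB ι) _ _).1 (hc (c i)) y₀
      rw [tendsto_iff_norm_sub_tendsto_zero] at h3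
      refine h3.congr fun y => ?_
      rw [map_sub]
    have h4 := tendsto_finsetSum Finset.univ fun i _ => h2 i
    have h5 := h4.const_mul C
    simpa using h5
  refine squeeze_zero (fun y => norm_nonneg _) (fun y => ?_) h1
  have h6 : ‖JB.mul (ι a) (JB.mul x (y - y₀))‖ ≤ C * ∑ i, ‖JB.mul (ι (c i)) (y - y₀)‖ :=
    hC (y - y₀)
  rw [map_sub, map_sub] at h6
  exact h6

end Pool.Agent.Results.MP_6503f0_an.SeparateStrict
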